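import Mathlib

/-!
# A function with a degenerate critical point is not nearly isometric to a one-dimensional solution
(helper938, for MP_c10eee_an of helper692)
-/

set_option autoImplicit false

namespace Pool.Agent.N938.RG

open Metric Filter Topology

/-- Four vectors of the space whose Gram matrix is close to the identity do not exist. -/
theorem gram4 (b : Fin 4 → EuclideanSpace ℝ (Fin 3))
    (h1 : ∀ i, 19 / 20 ≤ inner ℝ (b i) (b i))
    (h2 : ∀ i j, i ≠ j → |inner ℝ (b i) (b j)| ≤ 1 / 20) : False := by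
  have hli : LinearIndependent ℝ b := by
    rw [Fintype.linearIndependent_iff]
    intro g hg
    obtain ⟨i, hi⟩ := Finite.exists_max fun i => |g i|
    have h3 : ∑ j, g j * inner ℝ (b i) (b j) = 0 := by
      have h4 : inner ℝ (b i) (∑ j, g j • b j) = (0 : ℝ) := by rw [hg, inner_zero_right]
      rw [inner_sum] at h4
      simpa only [inner_smul_right] using h4
    rw [← Finset.add_sum_erase _ _ (Finset.mem_univ i)] at h3
    have h5 : |∑ j ∈ Finset.univ.erase i, g j * inner ℝ (b i) (b j)| ≤ 3 * (|g i| * (1 / 20)) := by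
      calc |∑ j ∈ Finset.univ.erase i, g j * inner ℝ (b i) (b j)|
          ≤ ∑ j ∈ Finset.univ.erase i, |g j * inner ℝ (b i) (b j)| := Finset.abs_sum_le_sum_abs _ _
        _ ≤ ∑ j ∈ Finset.univ.erase i, |g i| * (1 / 20) := by
            refine Finset.sum_le_sum fun j hj => ?_
            rw [abs_mul]
            exact mul_le_mul (hi j) (h2 i j (Finset.ne_of_mem_erase hj).symm) (abs_nonneg _)
              (abs_nonneg _)
        _ = 3 * (|g i| * (1 / 20)) := by
            rw [Finset.sum_const, Finset.card_erase_of_mem (Finset.mem_univ i), Finset.card_univ,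
              Fintype.card_fin, nsmul_eq_mul]
            norm_num
    have h6 : |g i * inner ℝ (b i) (b i)| ≤ 3 * (|g i| * (1 / 20)) := by
      have h7 : g i * inner ℝ (b i) (b i) =
          -∑ j ∈ Finset.univ.erase i, g j * inner ℝ (b i) (b j) := by linarith
      rw [h7, abs_neg]
      exact h5
    have h8 : |g i| * (19 / 20) ≤ |g i * inner ℝ (b i) (b i)| := by
      rw [abs_mul]
      exact mul_le_mul_of_nonneg_left ((h1 i).trans (le_abs_self _)) (abs_nonneg _)
    have h9 : |g i| ≤ 0 := by nlinarith [abs_nonneg (g i)]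
    intro j
    have h10 := (hi j).trans h9
    exact abs_nonpos_iff.1 h10
  have h3 := hli.fintype_card_le_finrank
  rw [finrank_euclideanSpace, Fintype.card_fin, Fintype.card_fin] at h3
  omega

/-- A solution of `V'' = f(V)` with a critical point at which `f` vanishes nearby is constant. -/
theorem const_of_crit {f : ℝ → ℝ} {R : ℝ} (hR : ∀ t ≤ -R, f t = 0) {V W : ℝ → ℝ}
    (hV : ∀ s, HasDerivAt V (W s) s) (hW : ∀ s, HasDerivAt W (f (V s)) s) {s₀ : ℝ}
    (h0 : V s₀ < -R) (h1 : W s₀ = 0) (s : ℝ) : V s = V s₀ := by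
  have hVc : Continuous V := continuous_iff_continuousAt.2 fun s => (hV s).continuousAt
  have hWc : Continuous W := continuous_iff_continuousAt.2 fun s => (hW s).continuousAt
  set Z : Set ℝ := {s | V s = V s₀ ∧ W s = 0} with hZ
  have hclosed : IsClosed Z :=
    (isClosed_eq hVc continuous_const).inter (isClosed_eq hWc continuous_const)
  have hopen : IsOpen Z := by
    rw [Metric.isOpen_iff]
    rintro t ⟨ht1, ht2⟩
    have h3 : ∀ᶠ x in 𝓝 t, V x < -R := hVc.continuousAt.eventually_lt continuousAt_const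
      (by rw [ht1]; exact h0)
    obtain ⟨ε, hε, hball⟩ := Metric.eventually_nhds_iff_ball.1 h3
    refine ⟨ε, hε, ?_⟩
    have hconv : Convex ℝ (ball t ε) := convex_ball t ε
    have hW0 : ∀ x ∈ ball t ε, W x = 0 := by
      intro x hx
      have h4 := hconv.is_const_of_fderivWithin_eq_zero (𝕜 := ℝ) (f := W)
        (fun y hy => (hW y).differentiableAt.differentiableWithinAt) (fun y hy => by
          rw [fderivWithin_of_isOpen isOpen_ball hy]
          have h5 := (hW y).hasFDerivAt.fderiv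
          rw [h5, hR _ (hball y hy).le]
          ext
          simp) hx (mem_ball_self hε)
      rw [h4, ht2]
    have hV0 : ∀ x ∈ ball t ε, V x = V s₀ := by
      intro x hx
      have h4 := hconv.is_const_of_fderivWithin_eq_zero (𝕜 := ℝ) (f := V)
        (fun y hy => (hV y).differentiableAt.differentiableWithinAt) (fun y hy => by
          rw [fderivWithin_of_isOpen isOpen_ball hy]
          have h5 := (hV y).hasFDerivAt.fderiv
          rw [h5, hW0 y hy]
          ext
          simp) hx (mem_ball_self hε)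
      rw [h4, ht1]
    exact fun x hx => ⟨hV0 x hx, hW0 x hx⟩
  have huniv : Z = Set.univ := IsClopen.eq_univ ⟨hclosed, hopen⟩ ⟨s₀, rfl, h1⟩
  have : s ∈ Z := by
    rw [huniv]
    trivial
  exact this.1

/-- **No representation.** A function `u` which is not constant near the origin, with
`|u(x) - u(0)| ≤ C |x|²`, and with `f = 0` near `u(0)`, is not nearly isometric to a one-dimensional
solution on any ball. -/
theorem no_rep {f : ℝ → ℝ} {R : ℝ} (hR : ∀ t ≤ -R, f t = 0) (u : EuclideanSpace ℝ (Fin 3) → ℝ)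
    (hu0 : u 0 < -R) (C : ℝ) (hC : ∀ x, ‖x‖ ≤ 1 → |u x - u 0| ≤ C * ‖x‖ ^ 2)
    (hne : ∀ d > 0, ∃ x, ‖x‖ < d ∧ u x ≠ u 0) (V W : ℝ → ℝ)
    (hV : ∀ s, HasDerivAt V (W s) s) (hW : ∀ s, HasDerivAt W (f (V s)) s)
    (a : EuclideanSpace ℝ (Fin 3)) (ha : ‖a‖ = 1) (d : ℝ) (hd : 0 < d)
    (Φ : EuclideanSpace ℝ (Fin 3) → EuclideanSpace ℝ (Fin 3))
    (hΦ : ∀ x ∈ ball (0 : EuclideanSpace ℝ (Fin 3)) d, ∀ y ∈ ball (0 : EuclideanSpace ℝ (Fin 3)) d,
      99 / 100 * ‖x - y‖ ≤ ‖Φ x - Φ y‖ ∧ ‖Φ x - Φ y‖ ≤ 101 / 100 * ‖x - y‖) :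
    ¬ ∀ x ∈ ball (0 : EuclideanSpace ℝ (Fin 3)) d, u x = V (inner ℝ (Φ x) a) := by
  intro hrep
  have h0 : (0 : EuclideanSpace ℝ (Fin 3)) ∈ ball (0 : EuclideanSpace ℝ (Fin 3)) d :=
    mem_ball_self hd
  set s₀ : ℝ := inner ℝ (Φ 0) a with hs₀
  have hu : u 0 = V s₀ := hrep 0 h0
  rcases eq_or_ne (W s₀) 0 with hw | hw
  · obtain ⟨x, hx, hxu⟩ := hne d hd
    apply hxu
    rw [hrep x (by rwa [mem_ball_zero_iff]), hu]
    exact const_of_crit hR hV hW (by rw [← hu]; exact hu0) hw _
  -- the slope is bounded from below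
  set α : ℝ := |W s₀| / 2 with hα
  have hαpos : 0 < α := by
    have := abs_pos.2 hw
    positivity
  have hlow : ∀ᶠ t in 𝓝 s₀, α * |t - s₀| ≤ |V t - V s₀| := by
    have h1 := (hV s₀).isLittleO
    have h2 := h1.def hαpos
    filter_upwards [h2] with t ht
    rw [Real.norm_eq_abs, Real.norm_eq_abs] at ht
    have h3 : |(t - s₀) • W s₀| ≤ |V t - V s₀ - (t - s₀) • W s₀| + |V t - V s₀| := by
      have h4 : (t - s₀) • W s₀ = -(V t - V s₀ - (t - s₀) • W s₀) + (V t - V s₀) := by ring
      calc |(t - s₀) • W s₀| = |-(V t - V s₀ - (t - s₀) • W s₀) + (V t - V s₀)| := by rw [← h4]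
        _ ≤ _ := by
          refine (abs_add_le _ _).trans ?_
          rw [abs_neg]
    rw [smul_eq_mul, abs_mul] at h3
    have h5 : |W s₀| = 2 * α := by rw [hα]; ring
    rw [h5] at h3
    rw [smul_eq_mul] at ht
    nlinarith
  obtain ⟨η, hη, hball⟩ := Metric.eventually_nhds_iff_ball.1 hlow
  have hC0 : 0 ≤ C := by
    have h1 := hC (EuclideanSpace.single 0 1) (by simp)
    have h2 : ‖(EuclideanSpace.single 0 1 : EuclideanSpace ℝ (Fin 3))‖ = 1 := by simp
    rw [h2] at h1
    have := abs_nonneg (u (EuclideanSpace.single 0 1) - u 0)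
    linarith
  -- a small radius
  obtain ⟨r, hr, hr1, hrd, hrη, hrC⟩ : ∃ r : ℝ, 0 < r ∧ r ≤ 1 ∧ r < d ∧ 101 / 100 * r < η ∧
      C * r ≤ α / 20 := by
    refine ⟨min (min 1 (d / 2)) (min (η / 2) (α / (20 * (C + 1)))), by positivity, ?_, ?_, ?_, ?_⟩
    · exact (min_le_left _ _).trans (min_le_left _ _)
    · have h1 := (min_le_left (min 1 (d / 2)) (min (η / 2) (α / (20 * (C + 1))))).trans
        (min_le_right 1 (d / 2))
      linarith
    · have h1 := (min_le_right (min 1 (d / 2)) (min (η / 2) (α / (20 * (C + 1))))).trans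
        (min_le_left (η / 2) (α / (20 * (C + 1))))
      linarith
    · have h1 := (min_le_right (min 1 (d / 2)) (min (η / 2) (α / (20 * (C + 1))))).trans
        (min_le_right (η / 2) (α / (20 * (C + 1))))
      calc C * min (min 1 (d / 2)) (min (η / 2) (α / (20 * (C + 1))))
          ≤ C * (α / (20 * (C + 1))) := by gcongr
        _ = α / 20 * (C / (C + 1)) := by field_simp
        _ ≤ α / 20 * 1 := by
            gcongr
            rw [div_le_one (by positivity)]
            linarith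
        _ = α / 20 := mul_one _
  set e : Fin 3 → EuclideanSpace ℝ (Fin 3) := fun i => EuclideanSpace.single i r with he
  have hen : ∀ i, ‖e i‖ = r := by
    intro i
    rw [he]
    simp [abs_of_pos hr]
  have hemem : ∀ i, e i ∈ ball (0 : EuclideanSpace ℝ (Fin 3)) d := by
    intro i
    rw [mem_ball_zero_iff, hen]
    exact hrd
  have hee : ∀ i j, i ≠ j → ‖e i - e j‖ ^ 2 = 2 * r ^ 2 := by
    intro i j hij
    rw [@norm_sub_sq_real, hen, hen]
    have : inner ℝ (e i) (e j) = (0 : ℝ) := by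
      rw [he]
      simp [EuclideanSpace.inner_single_left, EuclideanSpace.single_apply, hij]
    rw [this]
    ring
  set v : Fin 3 → EuclideanSpace ℝ (Fin 3) := fun i => Φ (e i) - Φ 0 with hv
  have hvn : ∀ i, 99 / 100 * r ≤ ‖v i‖ ∧ ‖v i‖ ≤ 101 / 100 * r := by
    intro i
    have h1 := hΦ (e i) (hemem i) 0 h0
    rw [sub_zero, hen] at h1
    exact h1
  have hvv : ∀ i j, i ≠ j → |inner ℝ (v i) (v j)| ≤ 1 / 20 * r ^ 2 := by
    intro i j hij
    have h1 := hΦ (e i) (hemem i) (e j) (hemem j)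
    have h2 : v i - v j = Φ (e i) - Φ (e j) := by
      rw [hv]
      simp
    have h3 := @norm_sub_sq_real _ _ _ (v i) (v j)
    rw [h2] at h3
    have h4 := hee i j hij
    have h5 : 0 ≤ ‖e i - e j‖ := norm_nonneg _
    have h6 : (99 / 100) ^ 2 * (2 * r ^ 2) ≤ ‖Φ (e i) - Φ (e j)‖ ^ 2 := by
      rw [← h4, ← mul_pow]
      exact pow_le_pow_left₀ (by positivity) h1.1 2
    have h7 : ‖Φ (e i) - Φ (e j)‖ ^ 2 ≤ (101 / 100) ^ 2 * (2 * r ^ 2) := by
      rw [← h4, ← mul_pow]
      exact pow_le_pow_left₀ (norm_nonneg _) h1.2 2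
    have h8 : ∀ i, (99 / 100) ^ 2 * r ^ 2 ≤ ‖v i‖ ^ 2 ∧ ‖v i‖ ^ 2 ≤ (101 / 100) ^ 2 * r ^ 2 := by
      intro i
      rw [← mul_pow, ← mul_pow]
      exact ⟨pow_le_pow_left₀ (by positivity) (hvn i).1 2,
        pow_le_pow_left₀ (norm_nonneg _) (hvn i).2 2⟩
    obtain ⟨a1, a2⟩ := h8 i
    obtain ⟨a3, a4⟩ := h8 j
    rw [abs_le]
    constructor <;> nlinarith [sq_nonneg r]
  have hva : ∀ i, |inner ℝ (v i) a| ≤ 1 / 20 * r := by
    intro i
    have h1 : inner ℝ (v i) a = inner ℝ (Φ (e i)) a - s₀ := by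
      rw [hv, hs₀]
      simp only
      rw [inner_sub_left]
    have h2 : |inner ℝ (v i) a| ≤ 101 / 100 * r := by
      refine (abs_real_inner_le_norm _ _).trans ?_
      rw [ha, mul_one]
      exact (hvn i).2
    have h3 : inner ℝ (Φ (e i)) a ∈ ball s₀ η := by
      rw [mem_ball, Real.dist_eq, ← h1]
      linarith
    have h4 := hball _ h3
    rw [← h1] at h4
    have h5 : V (inner ℝ (Φ (e i)) a) - V s₀ = u (e i) - u 0 := by
      rw [hrep (e i) (hemem i), hu]
    rw [h5] at h4
    have h6 := hC (e i) (by rw [hen]; exact hr1)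
    rw [hen] at h6
    have h7 : α * |inner ℝ (v i) a| ≤ α * (1 / 20 * r) := by
      calc α * |inner ℝ (v i) a| ≤ C * r ^ 2 := h4.trans h6
        _ = (C * r) * r := by ring
        _ ≤ (α / 20) * r := by gcongr
        _ = α * (1 / 20 * r) := by ring
    exact le_of_mul_le_mul_left h7 hαpos
  -- four nearly orthonormal vectors
  apply gram4 (Fin.cons a fun i => r⁻¹ • v i)
  · intro i
    refine Fin.cases ?_ (fun i => ?_) i
    · rw [Fin.cons_zero, real_inner_self_eq_norm_sq, ha]
      norm_num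
    · rw [Fin.cons_succ, real_inner_self_eq_norm_sq, norm_smul, Real.norm_eq_abs,
        abs_of_pos (inv_pos.2 hr), mul_pow]
      have h1 := (hvn i).1
      have h2 : (99 / 100) ^ 2 * r ^ 2 ≤ ‖v i‖ ^ 2 := by
        rw [← mul_pow]
        exact pow_le_pow_left₀ (by positivity) h1 2
      calc (19 : ℝ) / 20 ≤ (99 / 100) ^ 2 := by norm_num
        _ = r⁻¹ ^ 2 * ((99 / 100) ^ 2 * r ^ 2) := by field_simp
        _ ≤ r⁻¹ ^ 2 * ‖v i‖ ^ 2 := by gcongr
  · intro i j
    refine Fin.cases ?_ (fun i => ?_) i <;> refine Fin.cases ?_ (fun j => ?_) j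
    · intro h
      exact absurd rfl h
    · intro _
      rw [Fin.cons_zero, Fin.cons_succ, inner_smul_right, real_inner_comm, abs_mul,
        abs_of_pos (inv_pos.2 hr)]
      have h1 := hva j
      calc r⁻¹ * |inner ℝ (v j) a| ≤ r⁻¹ * (1 / 20 * r) := by gcongr
        _ = 1 / 20 := by field_simp
    · intro _
      rw [Fin.cons_zero, Fin.cons_succ, real_inner_smul_left, abs_mul, abs_of_pos (inv_pos.2 hr)]
      have h1 := hva i
      calc r⁻¹ * |inner ℝ (v i) a| ≤ r⁻¹ * (1 / 20 * r) := by gcongr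
        _ = 1 / 20 := by field_simp
    · intro hij
      rw [Fin.cons_succ, Fin.cons_succ, real_inner_smul_left, real_inner_smul_right, ← mul_assoc,
        abs_mul, abs_of_pos (by positivity)]
      have h1 := hvv i j (fun h => hij (by rw [h]))
      calc r⁻¹ * r⁻¹ * |inner ℝ (v i) (v j)| ≤ r⁻¹ * r⁻¹ * (1 / 20 * r ^ 2) := by gcongr
        _ = 1 / 20 := by field_simp

end Pool.Agent.N938.RG
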