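import Mathlib

/-!
# One-dimensional solutions with prescribed slope (helper938, for MP_c10eee_an of helper692)

For a continuous nonnegative function `f` with compact support, which vanishes on `(-∞, -R]`, and
`c > 0` there is a solution `V` of `V'' = f(V)` on the line with `V(s) = -R - 1 + c s` for `c s ≤ 1`.
-/

set_option autoImplicit false

namespace Pool.Agent.N938.RG

open MeasureTheory intervalIntegral

theorem exists_V (f : ℝ → ℝ) (hf : Continuous f) (hf0 : ∀ t, 0 ≤ f t) (hs : HasCompactSupport f)
    (R : ℝ) (hR : ∀ t ≤ -R, f t = 0) (c : ℝ) (hc : 0 < c) :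
    ∃ V W : ℝ → ℝ, (∀ s, HasDerivAt V (W s) s) ∧ (∀ s, HasDerivAt W (f (V s)) s) ∧
      ∀ s, c * s ≤ 1 → V s = -R - 1 + c * s := by
  set v₀ : ℝ := -R - 1 with hv₀
  set F : ℝ → ℝ := fun v => ∫ t in v₀..v, f t with hF
  have hFd : ∀ v, HasDerivAt F (f v) v := fun v => (hf.integral_hasStrictDerivAt v₀ v).hasDerivAt
  have hint : Integrable f := hf.integrable_of_hasCompactSupport hs
  have hF0 : ∀ v, v ≤ -R → F v = 0 := by
    intro v hv
    rw [hF]
    simp only
    rw [intervalIntegral.integral_zero_ae]
    refine Filter.Eventually.of_forall fun t ht => hR t ?_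
    have h1 := Set.uIoc_subset_uIcc ht
    rw [Set.mem_uIcc] at h1
    rcases h1 with h1 | h1
    · exact h1.2.trans hv
    · linarith [h1.2]
  have hFnn : ∀ v, 0 ≤ F v := by
    intro v
    rcases le_total v v₀ with h | h
    · rw [hF0 v (by linarith)]
    · exact intervalIntegral.integral_nonneg h fun t _ => hf0 t
  set K : ℝ := ∫ t, f t with hK
  have hFK : ∀ v, F v ≤ K := by
    intro v
    rcases le_total v v₀ with h | h
    · rw [hF0 v (by linarith)]
      exact integral_nonneg hf0
    · rw [hF]
      simp only
      rw [intervalIntegral.integral_of_le h]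
      exact setIntegral_le_integral hint (Filter.Eventually.of_forall hf0)
  set G : ℝ → ℝ := fun v => Real.sqrt (c ^ 2 + 2 * F v) with hG
  have hGpos : ∀ v, 0 < G v := by
    intro v
    apply Real.sqrt_pos.2
    have := hFnn v
    positivity
  have hGd : ∀ v, HasDerivAt G (f v / G v) v := by
    intro v
    have h1 : HasDerivAt (fun v => c ^ 2 + 2 * F v) (2 * f v) v := ((hFd v).const_mul 2).const_add _
    have h2 := h1.sqrt (by
      have := hFnn v
      positivity)
    convert h2 using 1
    rw [hG]
    field_simp
  have hGcont : Continuous G := continuous_iff_continuousAt.2 fun v => (hGd v).continuousAt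
  have hGM : ∀ v, G v ≤ Real.sqrt (c ^ 2 + 2 * K) := by
    intro v
    apply Real.sqrt_le_sqrt
    have := hFK v
    linarith
  set M : ℝ := Real.sqrt (c ^ 2 + 2 * K) with hM
  have hMpos : 0 < M := (hGpos 0).trans_le (hGM 0)
  set g : ℝ → ℝ := fun v => 1 / G v with hg
  have hgcont : Continuous g := continuous_const.div hGcont fun v => (hGpos v).ne'
  set T : ℝ → ℝ := fun v => ∫ t in v₀..v, g t with hT
  have hTd : ∀ v, HasDerivAt T (g v) v := fun v => (hgcont.integral_hasStrictDerivAt v₀ v).hasDerivAt
  have hTcont : Continuous T := continuous_iff_continuousAt.2 fun v => (hTd v).continuousAt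
  have hmono : StrictMono T := by
    apply strictMono_of_deriv_pos
    intro v
    rw [(hTd v).deriv]
    exact one_div_pos.2 (hGpos v)
  have hTlow : ∀ v, v₀ ≤ v → (v - v₀) / M ≤ T v := by
    intro v hv
    have h1 : ∫ t in v₀..v, (1 / M) ≤ ∫ t in v₀..v, g t :=
      intervalIntegral.integral_mono_on hv (by simp) (hgcont.intervalIntegrable _ _) fun t _ =>
        one_div_le_one_div_of_le (hGpos t) (hGM t)
    rw [intervalIntegral.integral_const, smul_eq_mul, mul_one_div] at h1
    exact h1
  have hTaff : ∀ v, v ≤ -R → T v = (v - v₀) / c := by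
    intro v hv
    have h1 : T v = ∫ t in v₀..v, (1 / c) := by
      apply intervalIntegral.integral_congr
      intro t ht
      rw [Set.mem_uIcc] at ht
      have ht' : t ≤ -R := by
        rcases ht with ht | ht
        · exact ht.2.trans hv
        · linarith [ht.2]
      show 1 / G t = 1 / c
      rw [hG]
      simp only
      rw [hF0 t ht', mul_zero, add_zero, Real.sqrt_sq hc.le]
    rw [h1, intervalIntegral.integral_const, smul_eq_mul, mul_one_div]
  have hsurj : Function.Surjective T := by
    apply hTcont.surjective
    · refine Filter.tendsto_atTop_mono' Filter.atTop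
        (f₁ := fun v => (v - v₀) / M) ?_ ?_
      · filter_upwards [Filter.eventually_ge_atTop v₀] with v hv
        exact hTlow v hv
      · exact (Filter.tendsto_atTop_add_const_right _ _ Filter.tendsto_id).atTop_div_const hMpos
    · refine Filter.tendsto_atBot_mono' Filter.atBot
        (f₁ := fun v => (v - v₀) / c) ?_ ?_
      · filter_upwards [Filter.eventually_le_atBot (-R)] with v hv
        exact (hTaff v hv).le
      · exact (Filter.tendsto_atBot_add_const_right _ _ Filter.tendsto_id).atBot_div_const hc
  set e : ℝ ≃o ℝ := hmono.orderIsoOfSurjective T hsurj with he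
  set V : ℝ → ℝ := fun s => e.symm s with hV
  have hVcont : Continuous V := e.symm.continuous
  have hTV : ∀ s, T (V s) = s := fun s => e.apply_symm_apply s
  have hVd : ∀ s, HasDerivAt V (G (V s)) s := by
    intro s
    have h1 := (hTd (V s)).of_local_left_inverse (f := T) (g := V) hVcont.continuousAt
      (one_div_pos.2 (hGpos _)).ne' (Filter.Eventually.of_forall hTV)
    rw [hg] at h1
    simp only [one_div, inv_inv] at h1
    exact h1
  refine ⟨V, fun s => G (V s), hVd, ?_, ?_⟩
  · intro s
    have h1 := (hGd (V s)).comp s (hVd s)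
    have h2 : f (V s) / G (V s) * G (V s) = f (V s) := div_mul_cancel₀ _ (hGpos _).ne'
    rw [h2] at h1
    exact h1
  · intro s hcs
    have h1 : T (v₀ + c * s) = s := by
      rw [hTaff _ (by rw [hv₀]; linarith)]
      field_simp
      ring
    have h2 : T (V s) = T (v₀ + c * s) := by rw [hTV, h1]
    exact hmono.injective h2

end Pool.Agent.N938.RG
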